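import Mathlib
import Pool.Agent.H443R2.AB.ATBasis

set_option autoImplicit false

namespace Pool.Agent.Results.MP_4e0dfc_co.TwoPBases

open Pool.Agent.H443R2.AB

universe u

/-- Any `2p-2` invertible `n × n` matrices over a field of characteristic `p` contain, outside any given
set `D` of at most `p-1` columns, `(p-1)n` distinct columns forming an Alon-Tarsi basis. -/
theorem result (p : ℕ) (hp : p.Prime) (F : Type u) [Field F] [CharP F p] (n : ℕ)
    (B : Fin (2 * p - 2) → Matrix (Fin n) (Fin n) F) (hB : ∀ j, (B j).det ≠ 0)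
    (D : Finset (Fin (2 * p - 2) × Fin n)) (hD : D.card ≤ p - 1) :
    ∃ f : Fin (p - 1) × Fin n → Fin (2 * p - 2) × Fin n, Function.Injective f ∧ (∀ c, f c ∉ D) ∧
      Matrix.permanent
        (Matrix.of (fun (r c : Fin (p - 1) × Fin n) => B (f c).1 r.2 (f c).2)) ≠ 0 := by
  classical
  have : Fact p.Prime := ⟨hp⟩
  have hli : ∀ j, LinearIndependent F (fun c : Fin n => fun r : Fin n => B j r c) := by
    intro j
    have h1 : IsUnit (B j).transpose := by
      rw [Matrix.isUnit_iff_isUnit_det, Matrix.det_transpose]
      exact isUnit_iff_ne_zero.mpr (hB j)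
    exact Matrix.linearIndependent_rows_iff_isUnit.mpr h1
  obtain ⟨f, hf, hper⟩ := at_basis_of_good p hp F n
    (fun i (x : Fin (2 * p - 2) × Fin n) => if x ∈ D then 0 else B x.1 i x.2) (by
      have h := good_of_bases_sdiff p (F := AlgebraicClosure F)
        (fun j c r => algebraMap F (AlgebraicClosure F) (B j r c))
        (fun j => a6_linInd_map _ (hli j)) D hD
      have e : (fun (i : Fin n) (x : Fin (2 * p - 2) × Fin n) =>
          algebraMap F (AlgebraicClosure F) (if x ∈ D then 0 else B x.1 i x.2)) =
          (fun i x => if x ∈ D then 0 else algebraMap F (AlgebraicClosure F) (B x.1 i x.2)) := by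
        funext i x
        split_ifs
        · exact map_zero _
        · rfl
      rw [e]; exact h)
  have hfD : ∀ c, f c ∉ D := by
    intro c hc
    apply hper
    rw [Matrix.permanent]
    refine Finset.sum_eq_zero fun σ _ => ?_
    refine Finset.prod_eq_zero (Finset.mem_univ c) ?_
    simp [hc]
  refine ⟨f, hf, hfD, ?_⟩
  have e : (Matrix.of (fun (r c : Fin (p - 1) × Fin n) => B (f c).1 r.2 (f c).2)) =
      Matrix.of (fun (r c : Fin (p - 1) × Fin n) => if f c ∈ D then 0 else B (f c).1 r.2 (f c).2) := by
    ext r c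
    simp [hfD c]
  rw [e]; exact hper

end Pool.Agent.Results.MP_4e0dfc_co.TwoPBases
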